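import Pool.Agent.W811.LW.Stm

set_option autoImplicit false
open Finset Filter Topology
open Pool.Agent.W811.LW

namespace Pool.Agent.W456.LW

theorem prim (v : V3) (hv : v ≠ (0, 0, 0)) : ∃ (k : ℤ) (u x : V3), k ≠ 0 ∧ v = smul3 k u ∧
    x.1 * u.1 + x.2.1 * u.2.1 + x.2.2 * u.2.2 = 1 := by
  obtain ⟨a, b, c⟩ := v
  set g' : ℤ := (Int.gcd b c : ℤ) with hg'
  set g : ℤ := (Int.gcd a g' : ℤ) with hg
  have h1 : g' = b * Int.gcdA b c + c * Int.gcdB b c := Int.gcd_eq_gcd_ab b c
  have h2 : g = a * Int.gcdA a g' + g' * Int.gcdB a g' := Int.gcd_eq_gcd_ab a g'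
  have hga : g ∣ a := Int.gcd_dvd_left ..
  have hgg : g ∣ g' := Int.gcd_dvd_right ..
  have hgb : g ∣ b := hgg.trans (Int.gcd_dvd_left ..)
  have hgc : g ∣ c := hgg.trans (Int.gcd_dvd_right ..)
  have hg0 : g ≠ 0 := by
    intro h
    rw [h] at hga hgb hgc
    apply hv
    rw [zero_dvd_iff] at hga hgb hgc
    rw [hga, hgb, hgc]
  obtain ⟨a', ha'⟩ := hga
  obtain ⟨b', hb'⟩ := hgb
  obtain ⟨c', hc'⟩ := hgc
  refine ⟨g, (a', b', c'), (Int.gcdA a g', Int.gcdA b c * Int.gcdB a g', Int.gcdB b c * Int.gcdB a g'),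
    hg0, ?_, ?_⟩
  · simp only [smul3]
    rw [← ha', ← hb', ← hc']
  · apply mul_left_cancel₀ hg0
    show g * (Int.gcdA a g' * a' + Int.gcdA b c * Int.gcdB a g' * b'
      + Int.gcdB b c * Int.gcdB a g' * c') = g * 1
    generalize Int.gcdA a g' = p at *
    generalize Int.gcdB a g' = q at *
    generalize Int.gcdA b c = r at *
    generalize Int.gcdB b c = s at *
    have e1 : g = a * p + (b * r + c * s) * q := by rw [← h1]; exact h2
    calc g * (p * a' + r * q * b' + s * q * c')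
        = (g * a') * p + ((g * b') * r + (g * c') * s) * q := by ring
      _ = a * p + (b * r + c * s) * q := by rw [← ha', ← hb', ← hc']
      _ = g * 1 := by rw [← e1]; ring

theorem mult (v u x : V3) (k : ℤ) (hk : k ≠ 0)
    (hx : x.1 * u.1 + x.2.1 * u.2.1 + x.2.2 * u.2.2 = 1) (hc : cr v (smul3 k u) = (0, 0, 0)) :
    ∃ m : ℤ, v = smul3 m u := by
  obtain ⟨a, b, c⟩ := v
  obtain ⟨p, q, r⟩ := u
  obtain ⟨x1, x2, x3⟩ := x
  simp only [cr, smul3, Prod.mk.injEq] at hc hx ⊢
  obtain ⟨c1, c2, c3⟩ := hc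
  have d1 : b * r - c * q = 0 := by
    apply mul_left_cancel₀ hk
    linarith
  have d2 : c * p - a * r = 0 := by
    apply mul_left_cancel₀ hk
    linarith
  have d3 : a * q - b * p = 0 := by
    apply mul_left_cancel₀ hk
    linarith
  refine ⟨x1 * a + x2 * b + x3 * c, ?_, ?_, ?_⟩
  · linear_combination (-a) * hx + x2 * d3 - x3 * d2
  · linear_combination (-b) * hx - x1 * d3 + x3 * d1
  · linear_combination (-c) * hx + x1 * d2 - x2 * d1

theorem rs_anti {x y : ℝ} (hx : 0 < x) (hxy : x ≤ y) : rs y ≤ rs x := by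
  unfold rs
  exact inv_anti₀ (Real.sqrt_pos.mpr hx) (Real.sqrt_le_sqrt hxy)

theorem inN_le (S : Set V3) (a b : V3 → ℝ) (v : V3) (hv : v ∈ S) : inN S a b ≤ NN a b v := by
  unfold inN
  apply csInf_le
  · refine ⟨0, ?_⟩
    rintro _ ⟨w, _, rfl⟩
    exact le_trans (abs_nonneg (a w)) (le_max_left _ _)
  · exact ⟨v, hv, rfl⟩

theorem le_inN (S : Set V3) (hS : S.Nonempty) (a b : V3 → ℝ) (c : ℝ)
    (h : ∀ v ∈ S, c ≤ NN a b v) : c ≤ inN S a b := by
  unfold inN
  apply le_csInf (hS.image _)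
  rintro _ ⟨w, hw, rfl⟩
  exact h w hw

theorem abs_ (h : AVL) : ABS := by
  intro D P R S a b hD hP hR hPR ha hb hS hS0 hSk hy
  set y := inN S a b with hydef
  have hD2 : (2 : ℝ) ≤ (D : ℝ) := by exact_mod_cast hD
  have hDD : (4 : ℝ) ≤ (D : ℝ) ^ 2 := by nlinarith
  have hRD : R ≤ (D : ℝ) ^ 2 := by rw [← hPR]; nlinarith
  have hPD : P ≤ (D : ℝ) ^ 2 := by rw [← hPR]; nlinarith
  have hP0 : 0 < P := by linarith
  have hR0 : 0 < R := by linarith
  -- abbreviations
  set A : ℕ → V3 → ℝ := fun d v => P * (a v + (d : ℝ) / (D : ℝ) ^ 2 * b v) with hA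
  set B : V3 → ℝ := fun v => b v / R with hB
  have hth : ∀ d : ℕ, d < D ^ 2 → 0 ≤ (d : ℝ) / (D : ℝ) ^ 2 ∧ (d : ℝ) / (D : ℝ) ^ 2 ≤ 1 := by
    intro d hd
    refine ⟨by positivity, ?_⟩
    rw [div_le_one (by positivity)]
    exact_mod_cast hd.le
  -- F1
  have F1 : ∀ d : ℕ, d < D ^ 2 → ∀ v : V3, NN a b v ≤ 2 * (D : ℝ) ^ 2 * NN (A d) B v := by
    intro d hd v
    obtain ⟨t0, t1⟩ := hth d hd
    set θ : ℝ := (d : ℝ) / (D : ℝ) ^ 2 with hθ
    have e1 : |A d v| ≤ NN (A d) B v := le_max_left _ _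
    have e2 : |B v| ≤ NN (A d) B v := le_max_right _ _
    set X := NN (A d) B v with hX
    have hX0 : 0 ≤ X := le_trans (abs_nonneg _) e1
    have e3 : |b v| ≤ R * X := by
      have : |B v| = |b v| / R := by
        simp only [hB]
        rw [abs_div, abs_of_pos hR0]
      rw [this, div_le_iff₀ hR0] at e2
      linarith
    have e4 : |b v| ≤ (D : ℝ) ^ 2 * X := le_trans e3 (mul_le_mul_of_nonneg_right hRD hX0)
    have e5 : |a v + θ * b v| ≤ X := by
      have : |A d v| = P * |a v + θ * b v| := by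
        simp only [hA]
        rw [abs_mul, abs_of_pos hP0]
      rw [this] at e1
      have h0 : 0 ≤ |a v + θ * b v| := abs_nonneg _
      nlinarith
    have e6 : |a v| ≤ |a v + θ * b v| + |b v| := by
      have h1 : |a v| = |(a v + θ * b v) - θ * b v| := by congr 1; ring
      rw [h1]
      have h2 : |(a v + θ * b v) - θ * b v| ≤ |a v + θ * b v| + |θ * b v| := abs_sub _ _
      have h3 : |θ * b v| ≤ |b v| := by
        rw [abs_mul, abs_of_nonneg t0]
        have := abs_nonneg (b v)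
        nlinarith
      linarith
    unfold NN
    apply max_le
    · nlinarith
    · nlinarith
  -- F2
  have F2 : ∀ d : ℕ, d < D ^ 2 → ∀ v : V3, NN (A d) B v ≤ 2 * (D : ℝ) ^ 2 * NN a b v := by
    intro d hd v
    obtain ⟨t0, t1⟩ := hth d hd
    set θ : ℝ := (d : ℝ) / (D : ℝ) ^ 2 with hθ
    have e1 : |a v| ≤ NN a b v := le_max_left _ _
    have e2 : |b v| ≤ NN a b v := le_max_right _ _
    set X := NN a b v with hX
    have hX0 : 0 ≤ X := le_trans (abs_nonneg _) e1
    unfold NN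
    apply max_le
    · simp only [hA]
      rw [abs_mul, abs_of_pos hP0]
      have h2 : |a v + θ * b v| ≤ |a v| + |θ * b v| := abs_add_le _ _
      have h3 : |θ * b v| ≤ |b v| := by
        rw [abs_mul, abs_of_nonneg t0]
        have := abs_nonneg (b v)
        nlinarith
      have h4 : |a v + θ * b v| ≤ 2 * X := by linarith
      calc P * |a v + θ * b v| ≤ P * (2 * X) := mul_le_mul_of_nonneg_left h4 hP0.le
        _ ≤ (D : ℝ) ^ 2 * (2 * X) := mul_le_mul_of_nonneg_right hPD (by linarith)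
        _ = 2 * (D : ℝ) ^ 2 * X := by ring
    · simp only [hB]
      rw [abs_div, abs_of_pos hR0, div_le_iff₀ hR0]
      have h1 : X ≤ 2 * (D : ℝ) ^ 2 * X * R := by
        have : (1 : ℝ) ≤ 2 * (D : ℝ) ^ 2 * R := by nlinarith
        nlinarith
      linarith
  have hlow : ∀ d : ℕ, d < D ^ 2 → y / (2 * (D : ℝ) ^ 2) ≤ inN S (A d) B := by
    intro d hd
    apply le_inN S hS
    intro v hv
    rw [div_le_iff₀ (by positivity)]
    have h1 := F1 d hd v
    have h2 : y ≤ NN a b v := inN_le S a b v hv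
    linarith
  refine ⟨fun d hd => ⟨?_, ?_⟩, ?_⟩
  · exact lt_of_lt_of_le (by positivity) (hlow d hd)
  · have h1 := hlow d hd
    rw [div_le_iff₀ (by positivity)] at h1
    show y ≤ 2 * (D : ℝ) ^ 2 * inN S (A d) B
    linarith
  · by_cases H : ∃ v ∈ S, ∃ w ∈ S, cr v w ≠ (0, 0, 0) ∧ NN a b v ≤ 8 * (D : ℝ) ^ 4 * y ∧
      NN a b w ≤ 8 * (D : ℝ) ^ 4 * y
    · exact Or.inr H
    · left
      obtain ⟨_, ⟨v1, hv1, rfl⟩, hv1y⟩ : ∃ z ∈ NN a b '' S, z < 2 * y := by
        apply exists_lt_of_csInf_lt (hS.image _)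
        show y < 2 * y
        linarith
      obtain ⟨k0, u, x, hk0, hvu, hxu⟩ := prim v1 (hS0 v1 hv1)
      have hu : u ∈ S := hSk k0 u (hvu ▸ hv1)
      have hNk : ∀ (d : ℕ) (k : ℤ) (w : V3), NN (A d) B (smul3 k w) = |(k : ℝ)| * NN (A d) B w := by
        intro d k w
        unfold NN
        rw [mul_max_of_nonneg _ _ (abs_nonneg _)]
        simp only [hA, hB]
        rw [ha, hb, ← abs_mul, ← abs_mul]
        congr 2 <;> ring
      have hNk' : ∀ (k : ℤ) (w : V3), NN a b (smul3 k w) = |(k : ℝ)| * NN a b w := by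
        intro k w
        unfold NN
        rw [mul_max_of_nonneg _ _ (abs_nonneg _)]
        rw [ha, hb, ← abs_mul, ← abs_mul]
      have habs : ∀ k : ℤ, k ≠ 0 → (1 : ℝ) ≤ |(k : ℝ)| := by
        intro k hk
        have : (1 : ℤ) ≤ |k| := Int.one_le_abs hk
        exact_mod_cast this
      have hD4 : (16 : ℝ) ≤ (D : ℝ) ^ 4 := by nlinarith
      have huy : y ≤ NN a b u := inN_le S a b u hu
      have hu2 : NN a b u < 2 * y := by
        have h1 := hNk' k0 u
        rw [← hvu] at h1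
        have h2 := habs k0 hk0
        nlinarith
      have key : ∀ d : ℕ, d < D ^ 2 → NN (A d) B u ≤ inN S (A d) B := by
        intro d hd
        apply le_inN S hS
        intro v hv
        by_cases hvN : NN a b v ≤ 8 * (D : ℝ) ^ 4 * y
        · have hcr : cr v (smul3 k0 u) = (0, 0, 0) := by
            by_contra hne
            apply H
            refine ⟨v, hv, v1, hv1, ?_, hvN, ?_⟩
            · rw [hvu]; exact hne
            · nlinarith
          obtain ⟨m, hm⟩ := mult v u x k0 hk0 hxu hcr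
          have hm0 : m ≠ 0 := by
            intro h0
            apply hS0 v hv
            rw [hm, h0]
            simp [smul3]
          rw [hm, hNk]
          have h2 := habs m hm0
          have h3 : 0 ≤ NN (A d) B u := le_trans (abs_nonneg _) (le_max_left _ _)
          nlinarith
        · have hvN' := not_le.mp hvN
          have h1 := F1 d hd v
          have h2 := F2 d hd u
          have h3 : 8 * (D : ℝ) ^ 4 * y < 2 * (D : ℝ) ^ 2 * NN (A d) B v := lt_of_lt_of_le hvN' h1
          have h4 : 4 * (D : ℝ) ^ 2 * y < NN (A d) B v := by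
            have h5 : 2 * (D : ℝ) ^ 2 * (4 * (D : ℝ) ^ 2 * y) < 2 * (D : ℝ) ^ 2 * NN (A d) B v := by
              calc 2 * (D : ℝ) ^ 2 * (4 * (D : ℝ) ^ 2 * y) = 8 * (D : ℝ) ^ 4 * y := by ring
                _ < _ := h3
            exact lt_of_mul_lt_mul_left h5 (by positivity)
          have h6 : 2 * (D : ℝ) ^ 2 * NN a b u ≤ 2 * (D : ℝ) ^ 2 * (2 * y) :=
            mul_le_mul_of_nonneg_left hu2.le (by positivity)
          nlinarith
      have hpos : ∀ d : ℕ, d < D ^ 2 → 0 < NN (A d) B u := by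
        intro d hd
        have h1 := F1 d hd u
        by_contra hcon
        have hcon' := not_lt.mp hcon
        have h2 : 2 * (D : ℝ) ^ 2 * NN (A d) B u ≤ 0 :=
          mul_nonpos_of_nonneg_of_nonpos (by positivity) hcon'
        linarith
      have hne : a u ≠ 0 ∨ b u ≠ 0 := by
        by_contra hcon
        push Not at hcon
        have : NN a b u = 0 := by
          unfold NN
          rw [hcon.1, hcon.2]; simp
        linarith
      have hAV := h D P R (a u) (b u) (by omega) hP hR hPR hne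
      calc ∑ d ∈ range (D ^ 2), rs (inN S (A d) B)
          ≤ ∑ d ∈ range (D ^ 2), rs (NN (A d) B u) := by
            apply Finset.sum_le_sum
            intro d hd
            have hd' := Finset.mem_range.mp hd
            exact rs_anti (hpos d hd') (key d hd')
        _ ≤ (D : ℝ) ^ 2 * (16 * rs P * rs (max |a u| |b u|)) := hAV
        _ ≤ (D : ℝ) ^ 2 * (16 * rs P * rs y) := by
            have h1 : rs (max |a u| |b u|) ≤ rs y := rs_anti hy huy
            have h2 : 0 ≤ rs P := by unfold rs; positivity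
            have h3 : 16 * rs P * rs (max |a u| |b u|) ≤ 16 * rs P * rs y :=
              mul_le_mul_of_nonneg_left h1 (by positivity)
            exact mul_le_mul_of_nonneg_left h3 (by positivity)

end Pool.Agent.W456.LW

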